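import Pool.Agent.H88.MCR.Stmts3
import Pool.Agent.H80.MCR.CGP

set_option autoImplicit false

namespace Pool.MCR

theorem crp_thm : CRP_S := by
  intro L _ R n D w r hG hw hR hT
  have hne : ∀ x y, R x y → x ≠ y := fun x y h he => hG.irr x (by rw [← he] at h; exact h)
  have tw : ∀ y < n, R n y → R w y := fun y hy h => (hT y hy).1 h
  have tw' : ∀ y < n, R y n → R w y := fun y hy h => (hT y hy).1 (hG.sym _ _ h)
  have hpos_n : (clone D n w r).pos n = lp (D.pos w) 1 := if_pos rfl
  have hpos : ∀ z, z < n → (clone D n w r).pos z = lp (D.pos z) 0 := fun z hz =>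
    if_neg (ne_of_lt hz)
  have hEn : ∀ y, (clone D n w r).E n y = newE D w r y := fun y => if_pos rfl
  have hEn' : ∀ x, x < n → (clone D n w r).E x n = (newE D w r x).reverse := by
    intro x hx
    show (if x = n then newE D w r n else if n = n then (newE D w r x).reverse
      else (D.E x n).map (fun c => lp c 0)) = _
    rw [if_neg (ne_of_lt hx), if_pos rfl]
  have hE : ∀ x y, x < n → y < n →
      (clone D n w r).E x y = (D.E x y).map (fun c => lp c 0) := by
    intro x y hx hy
    show (if x = n then newE D w r y else if y = n then (newE D w r x).reverse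
      else (D.E x y).map (fun c => lp c 0)) = _
    rw [if_neg (ne_of_lt hx), if_neg (ne_of_lt hy)]
  have hlt : ∀ x, x < n + 1 → x = n ∨ x < n := fun x hx => by omega
  -- points of the new edges
  have hnew : ∀ y < n, R w y → ∀ z < n + 1, (clone D n w r).pos z ∉ newE D w r y := by
    intro y hy hwy z hz hm
    obtain ⟨hyw, hm⟩ := cgp_mem_newE hm
    have hr := hR.1 y
    rcases hlt z hz with rfl | hz
    · rw [hpos_n] at hm
      rcases hm with hm | ⟨c, hc, k, hk, hm⟩
      · have := (cgp_lp_inj hm).2
        omega
      · have := (cgp_lp_inj hm).1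
        rw [← this] at hc
        exact hG.notin w hw y hy w hw hwy hc
    · rw [hpos z hz] at hm
      rcases hm with hm | ⟨c, hc, k, hk, hm⟩
      · have := (cgp_lp_inj hm).2
        omega
      · have := (cgp_lp_inj hm).2
        omega
  refine ⟨?_, ?_, ?_, ?_⟩
  · intro x hx y hy h
    rcases hlt x hx with rfl | hx <;> rcases hlt y hy with rfl | hy
    · rfl
    · rw [hpos_n, hpos y hy] at h
      exact absurd (cgp_lp_inj h).2 (by norm_num)
    · rw [hpos_n, hpos x hx] at h
      exact absurd (cgp_lp_inj h).2 (by norm_num)
    · rw [hpos x hx, hpos y hy] at h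
      exact hG.pos_inj x hx y hy (cgp_lp_inj h).1
  · intro x hx y hy z hz hxy
    rcases hlt x hx with rfl | hx
    · have hy' : y < x := by
        have := hne _ _ hxy
        omega
      rw [hEn]
      exact hnew y hy' (tw y hy' hxy) z hz
    · rcases hlt y hy with rfl | hy
      · rw [hEn' x hx, List.mem_reverse]
        exact hnew x hx (tw' x hx hxy) z hz
      · rw [hE x y hx hy, List.mem_map]
        rintro ⟨c, hc, hm⟩
        rcases hlt z hz with rfl | hz
        · rw [hpos_n] at hm
          exact absurd (cgp_lp_inj hm).2 (by norm_num)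
        · rw [hpos z hz] at hm
          rw [(cgp_lp_inj hm).1] at hc
          exact hG.notin x hx y hy z hz hxy hc
  · intro x hx y hy hxy
    have hnd : ∀ y < n, R w y → (newE D w r y).Nodup := fun y hy hwy =>
      cgp_nodup_newE (fun _ => hG.nodup w hw y hy hwy)
        (fun _ => hG.notin w hw y hy w hw hwy)
    rcases hlt x hx with rfl | hx
    · rw [hEn]
      have hy' : y < x := by
        have := hne _ _ hxy
        omega
      exact hnd y hy' (tw y hy' hxy)
    · rcases hlt y hy with rfl | hy
      · rw [hEn' x hx, List.nodup_reverse]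
        exact hnd x hx (tw' x hx hxy)
      · rw [hE x y hx hy]
        exact (hG.nodup x hx y hy hxy).map fun a b h => (cgp_lp_inj h).1
  · intro x hx y hy hxy c hc
    rcases hlt x hx with rfl | hx
    · have hy' : y < x := by
        have := hne _ _ hxy
        omega
      rw [hEn] at hc
      rw [hEn' y hy', List.mem_reverse]
      exact hc
    · rcases hlt y hy with rfl | hy
      · rw [hEn' x hx, List.mem_reverse] at hc
        rw [hEn]
        exact hc
      · rw [hE x y hx hy, List.mem_map] at hc
        obtain ⟨d, hd, rfl⟩ := hc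
        rw [hE y x hy hx, List.mem_map]
        exact ⟨d, hG.symE x hx y hy hxy d hd, rfl⟩

end Pool.MCR
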